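import Pool.Agent.H23.GZ.Targets5
import Pool.Agent.H34.GM.ZMT

/-!
Row ZEK of the board gz: the zeta integral of the combination of dilates.
-/

set_option autoImplicit false

namespace Pool.Agent.H21.GZ

open MeasureTheory Pool.Agent.H34.GM Pool.Agent.H34.GZ

/-- dilates of a test function -/
theorem zek_tst {m : ℕ} {Φ : Mat m → ℂ} (h : Tst m Φ) {t : ℝ} (ht : 0 < t) :
    Tst m fun z => Φ (t⁻¹ • z) := by
  obtain ⟨c, hc, hs⟩ := h.supp
  refine ⟨h.cont.comp (continuous_const_smul _), ?_, ?_, ?_⟩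
  · refine ⟨max (t * c) ((t ^ m)⁻¹ * c), lt_max_of_lt_left (mul_pos ht hc), fun z hz => ?_⟩
    obtain ⟨h1, h2⟩ := hs _ hz
    constructor
    · refine le_trans ?_ (le_max_left _ _)
      have e1 : sz (t⁻¹ • z) = t⁻¹ * sz z := by
        unfold sz
        have : ((fun i j => (t⁻¹ • z) i j) : V m) = t⁻¹ • ((fun i j => z i j) : V m) := rfl
        rw [this, norm_smul, Real.norm_of_nonneg (inv_pos.2 ht).le]
      rw [e1, inv_mul_le_iff₀ ht] at h1
      exact h1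
    · have e2 : (t⁻¹ • z).det = (t⁻¹) ^ m * z.det := by
        rw [Matrix.det_smul, Fintype.card_fin]
      rw [e2, abs_mul, abs_of_pos (pow_pos (inv_pos.2 ht) m)] at h2
      have hp : 0 < t ^ m := pow_pos ht m
      have h3 : t ^ m * c⁻¹ ≤ |z.det| := by
        have h4 := mul_le_mul_of_nonneg_left h2 hp.le
        rw [← mul_assoc, inv_pow, mul_inv_cancel₀ hp.ne', one_mul] at h4
        exact h4
      refine le_trans ?_ h3
      have h5 : (t ^ m)⁻¹ * c ≤ max (t * c) ((t ^ m)⁻¹ * c) := le_max_right _ _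
      have h6 : 0 < (t ^ m)⁻¹ * c := mul_pos (inv_pos.2 hp) hc
      calc (max (t * c) ((t ^ m)⁻¹ * c))⁻¹ ≤ ((t ^ m)⁻¹ * c)⁻¹ := inv_anti₀ h6 h5
        _ = t ^ m * c⁻¹ := by rw [mul_inv, inv_inv]
  · intro u hu z
    have e : t⁻¹ • (u * z) = u * (t⁻¹ • z) := (Matrix.mul_smul u t⁻¹ z).symm
    simp only [e]
    exact h.left u hu _
  · intro u hu z
    have e : t⁻¹ • (z * u) = (t⁻¹ • z) * u := (Matrix.smul_mul t⁻¹ z u).symm
    simp only [e]
    exact h.right u hu _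

/-- the zeta integral of a dilate -/
theorem zek_dil (hC : T_HAC) (hP : T_PWC) {m : ℕ} (hm1 : 1 ≤ m) {Φ : Mat m → ℂ}
    {mu : Fin m → ℂ} (h : Tst m Φ) (h0 : ∑ j, mu j = 0) {t : ℝ} (ht : 0 < t) (s : ℂ) :
    Zf (fun z => Φ (t⁻¹ • z)) mu s =
      (((t ^ m : ℝ)) : ℂ) ^ (s + ((m : ℂ) - 1) / 2) * Zf Φ mu s := by
  set w : ℂ := s + ((m : ℂ) - 1) / 2 with hw
  have hdet : ((t • (1 : Mat m)).det) ≠ 0 := by
    rw [Matrix.det_smul, Matrix.det_one, mul_one]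
    exact (pow_pos ht _).ne'
  have h1 := ((hC m hm1).1 (t • (1 : Mat m)) hdet (zmtf (fun z => Φ (t⁻¹ • z)) mu w)).1
  have h2 : Zf (fun z => Φ (t⁻¹ • z)) mu s =
      ∫ z, zmtf (fun z => Φ (t⁻¹ • z)) mu w z ∂(hm m) := rfl
  have h3 : Zf Φ mu s = ∫ z, zmtf Φ mu w z ∂(hm m) := rfl
  rw [h2, ← h1, h3, ← integral_const_mul]
  refine integral_congr_ae (Filter.Eventually.of_forall fun z => ?_)
  have e1 : mt (fun i j => ((t • (1 : Mat m)) * mt z) i j) = t • mt z := by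
    have : (t • (1 : Mat m)) * mt z = t • mt z := by rw [Matrix.smul_mul, one_mul]
    show (t • (1 : Mat m)) * mt z = t • mt z
    exact this
  show Φ (t⁻¹ • mt (fun i j => ((t • (1 : Mat m)) * mt z) i j)) *
    ((|(mt (fun i j => ((t • (1 : Mat m)) * mt z) i j)).det| : ℝ) : ℂ) ^ w *
    pw mu (mt (fun i j => ((t • (1 : Mat m)) * mt z) i j)) =
    (((t ^ m : ℝ)) : ℂ) ^ w * (Φ (mt z) * ((|(mt z).det| : ℝ) : ℂ) ^ w * pw mu (mt z))
  rw [e1, smul_smul, inv_mul_cancel₀ ht.ne', one_smul]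
  by_cases hd : (mt z).det = 0
  · have hz : Φ (mt z) = 0 := by
      obtain ⟨c, hc, hs⟩ := h.supp
      by_contra hne
      have h5 := (hs _ hne).2
      rw [hd, abs_zero] at h5
      exact absurd h5 (not_le.2 (inv_pos.2 hc))
    rw [hz]
    ring
  · rw [(hP m hm1 mu).2 h0 t ht _ hd]
    have e2 : |(t • mt z).det| = t ^ m * |(mt z).det| := by
      rw [Matrix.det_smul, Fintype.card_fin, abs_mul, abs_of_pos (pow_pos ht m)]
    have e3 : ((t ^ m * |(mt z).det| : ℝ) : ℂ) ^ w =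
        ((t ^ m : ℝ) : ℂ) ^ w * ((|(mt z).det| : ℝ) : ℂ) ^ w := by
      rw [Complex.ofReal_mul]
      exact Complex.mul_cpow_ofReal_nonneg (pow_pos ht m).le (abs_nonneg _) w
    rw [e2, e3]
    ring

theorem pf_ZEK (hH : T_HAR) (hC : T_HAC) (hP : T_PWC) : T_ZEK := by
  intro m hm1 K c Φ mu h0 h s
  set w : ℂ := s + ((m : ℂ) - 1) / 2 with hw
  have htw : ∀ n : Fin m → ℕ, 0 < tw n := fun n => by
    unfold tw
    positivity
  have hmR : (m : ℝ) ≠ 0 := by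
    have : 0 < m := hm1
    positivity
  have htwm : ∀ n : Fin m → ℕ, tw n ^ m = 2 ^ (∑ j, n j) := fun n => by
    unfold tw
    rw [← Real.rpow_natCast, ← Real.rpow_mul (by norm_num : (0 : ℝ) ≤ 2),
      div_mul_cancel₀ _ hmR, Real.rpow_natCast]
  -- linearity
  have h1 : Zf (eK K c Φ) mu s = ∑ n ∈ nK K, cK K c n * ((tw n ^ (m ^ 2))⁻¹ : ℝ) *
      Zf (fun z => Φ ((tw n)⁻¹ • z)) mu s := by
    have h2 : ∀ n : Fin m → ℕ, cK K c n * ((tw n ^ (m ^ 2))⁻¹ : ℝ) *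
        Zf (fun z => Φ ((tw n)⁻¹ • z)) mu s =
        ∫ z, cK K c n * ((tw n ^ (m ^ 2))⁻¹ : ℝ) *
          zmtf (fun z => Φ ((tw n)⁻¹ • z)) mu w z ∂(hm m) := by
      intro n
      rw [integral_const_mul]
      rfl
    rw [Finset.sum_congr rfl fun n _ => h2 n, ← integral_finsetSum]
    · show ∫ z, eK K c Φ (mt z) * ((|(mt z).det| : ℝ) : ℂ) ^ w * pw mu (mt z) ∂(hm m) = _
      refine integral_congr_ae (Filter.Eventually.of_forall fun z => ?_)
      show eK K c Φ (mt z) * ((|(mt z).det| : ℝ) : ℂ) ^ w * pw mu (mt z) =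
        ∑ n ∈ nK K, cK K c n * ((tw n ^ (m ^ 2))⁻¹ : ℝ) *
          zmtf (fun z => Φ ((tw n)⁻¹ • z)) mu w z
      unfold eK zmtf
      rw [Finset.sum_mul, Finset.sum_mul]
      refine Finset.sum_congr rfl fun n _ => ?_
      ring
    · intro n _
      exact (zmt_int hH hP hm1 mu (zek_tst h (htw n)) w).const_mul _
  rw [h1]
  -- the dilates
  have h3 : ∀ n : Fin m → ℕ, cK K c n * ((tw n ^ (m ^ 2))⁻¹ : ℝ) *
      Zf (fun z => Φ ((tw n)⁻¹ • z)) mu s =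
      (∏ j, (((pK (K j)).coeff (n j) : ℝ) : ℂ) *
        (c j * (2 : ℂ) ^ (w - m)) ^ n j) * Zf Φ mu s := by
    intro n
    rw [zek_dil hC hP hm1 h h0 (htw n) s, htwm]
    have e1 : ((((tw n ^ (m ^ 2))⁻¹ : ℝ)) : ℂ) = ∏ j, ((2 : ℂ) ^ (-(m : ℂ))) ^ n j := by
      have e2 : tw n ^ (m ^ 2) = (2 ^ (∑ j, n j)) ^ m := by
        rw [← htwm n, ← pow_mul]
        congr 1
        ring
      rw [e2, Finset.prod_pow_eq_pow_sum, Complex.cpow_neg, Complex.cpow_natCast]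
      push_cast
      rw [inv_pow, ← pow_mul, ← pow_mul, mul_comm]
    have e3 : (((2 : ℝ) ^ (∑ j, n j) : ℝ) : ℂ) ^ w = ∏ j, ((2 : ℂ) ^ w) ^ n j := by
      rw [zmt_pow (by norm_num : (0 : ℝ) < 2), Finset.prod_pow_eq_pow_sum, ← Complex.cpow_nat_mul]
      norm_num
    rw [e1]
    rw [← hw, e3]
    unfold cK
    have e4 : ∀ j, (((pK (K j)).coeff (n j) : ℝ) : ℂ) * (c j * (2 : ℂ) ^ (w - m)) ^ n j =
        (((pK (K j)).coeff (n j) : ℝ) : ℂ) * c j ^ n j * ((2 : ℂ) ^ (-(m : ℂ))) ^ n j *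
          ((2 : ℂ) ^ w) ^ n j := by
      intro j
      have e5 : (2 : ℂ) ^ (w - m) = (2 : ℂ) ^ (-(m : ℂ)) * (2 : ℂ) ^ w := by
        rw [← Complex.cpow_add _ _ (by norm_num : (2 : ℂ) ≠ 0)]
        congr 1
        ring
      rw [e5, mul_pow, mul_pow]
      ring
    have e6 : (∏ j, (((pK (K j)).coeff (n j) : ℝ) : ℂ) * (c j * (2 : ℂ) ^ (w - m)) ^ n j) =
        (∏ j, (((pK (K j)).coeff (n j) : ℝ) : ℂ) * c j ^ n j) *
          (∏ j, ((2 : ℂ) ^ (-(m : ℂ))) ^ n j) * ∏ j, ((2 : ℂ) ^ w) ^ n j := by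
      rw [Finset.prod_congr rfl fun j _ => e4 j, Finset.prod_mul_distrib,
        Finset.prod_mul_distrib]
    rw [e6]
    ring
  rw [Finset.sum_congr rfl fun n _ => h3 n, ← Finset.sum_mul]
  congr 1
  unfold nK
  rw [Finset.prod_univ_sum]

end Pool.Agent.H21.GZ
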